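import Mathlib
import Pool.Agent.H.MP_e9e8de_lc.A

namespace Pool.Agent.Results.MP_e9e8de_lc.No
open Set

theorem result (X : Type) [TopologicalSpace X] (U : ℕ → Set X)
    (hU : TopologicalSpace.IsTopologicalBasis (range U))
    (hB : @MeasurableSet _ (borel _) {p : (ℕ → ℕ) × (ℕ → ℕ) | ⋃ n, U (p.1 n) = ⋃ n, U (p.2 n)}) :
    IsGδ {p : (ℕ → ℕ) × (ℕ → ℕ) | ⋃ n, U (p.1 n) = ⋃ n, U (p.2 n)} :=
  Pool.Agent.H.MP_e9e8de_lc.main X U hU hB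

end Pool.Agent.Results.MP_e9e8de_lc.No
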